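import Pool.Agent.Q163.BA.Weight

set_option autoImplicit false

open Filter Topology ZeroAtInfty

namespace Pool.Agent.Q163.BA

/-- The Banach space of null sequences in `L`. -/
abbrev C0 : Type := C₀(ℕ, L)

lemma cocompact_nat : cocompact ℕ = (atTop : Filter ℕ) := by
  rw [cocompact_eq_cofinite, Nat.cofinite_eq_atTop]

/-- A null sequence as an element of `C0`. -/
noncomputable def mk0 (f : ℕ → L) (h : Tendsto f atTop (𝓝 0)) : C0 :=
  ⟨⟨f, continuous_of_discreteTopology⟩, by rw [cocompact_nat]; exact h⟩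

@[simp] lemma mk0_apply (f : ℕ → L) (h : Tendsto f atTop (𝓝 0)) (n : ℕ) : mk0 f h n = f n := rfl

lemma tendsto0 (f : C0) : Tendsto (fun n => f n) atTop (𝓝 0) := by
  have := f.zero_at_infty'
  rw [cocompact_nat] at this
  exact this

lemma norm_apply_le (f : C0) (n : ℕ) : ‖f n‖ ≤ ‖f‖ := by
  rw [← ZeroAtInftyContinuousMap.norm_toBCF_eq_norm]
  exact f.toBCF.norm_coe_le_norm n

lemma norm_le_of (f : C0) (K : ℝ) (hK : 0 ≤ K) (h : ∀ n, ‖f n‖ ≤ K) : ‖f‖ ≤ K := by
  rw [← ZeroAtInftyContinuousMap.norm_toBCF_eq_norm]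
  exact (BoundedContinuousFunction.norm_le hK).2 h

/-- The product. -/
noncomputable def mul0 (f g : C0) : C0 :=
  mk0 (fun n => mul n (f n) (g n)) (by
    refine squeeze_zero_norm (fun n => norm_mul_le' n (f n) (g n)) ?_
    have h1 := (tendsto0 f).norm.mul (tendsto0 g).norm
    simpa using h1)

lemma mul0_apply (f g : C0) (n : ℕ) : mul0 f g n = mul n (f n) (g n) := rfl

lemma mul0_add_left (a b d : C0) : mul0 (a + b) d = mul0 a d + mul0 b d := by
  ext1 n
  simp only [mul0_apply, ZeroAtInftyContinuousMap.add_apply, map_add, add_apply]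

lemma mul0_add_right (a b d : C0) : mul0 a (b + d) = mul0 a b + mul0 a d := by
  ext1 n
  simp only [mul0_apply, ZeroAtInftyContinuousMap.add_apply, map_add]

lemma mul0_zero_left (a : C0) : mul0 0 a = 0 := by
  ext1 n
  simp only [mul0_apply, ZeroAtInftyContinuousMap.zero_apply, map_zero, zero_apply]

lemma mul0_zero_right (a : C0) : mul0 a 0 = 0 := by
  ext1 n
  simp only [mul0_apply, ZeroAtInftyContinuousMap.zero_apply, map_zero]

lemma mul0_assoc (a b d : C0) : mul0 (mul0 a b) d = mul0 a (mul0 b d) := by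
  ext1 n
  simp only [mul0_apply, mul_assoc']

lemma mul0_smul_left (k : ℂ) (a b : C0) : mul0 (k • a) b = k • mul0 a b := by
  ext1 n
  simp only [mul0_apply, ZeroAtInftyContinuousMap.smul_apply, map_smul, smul_apply]

lemma mul0_smul_right (k : ℂ) (a b : C0) : mul0 a (k • b) = k • mul0 a b := by
  ext1 n
  simp only [mul0_apply, ZeroAtInftyContinuousMap.smul_apply, map_smul]

lemma mul0_norm (a b : C0) : ‖mul0 a b‖ ≤ ‖a‖ * ‖b‖ := by
  refine norm_le_of _ _ (by positivity) fun n => ?_
  refine (norm_mul_le' n (a n) (b n)).trans ?_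
  exact mul_le_mul (norm_apply_le a n) (norm_apply_le b n) (norm_nonneg _) (norm_nonneg _)

/-- The Banach algebra. -/
def Alg : Type := C0

noncomputable instance : NonUnitalNormedRing Alg :=
  { (inferInstance : NormedAddCommGroup C0) with
    mul := mul0
    left_distrib := mul0_add_right
    right_distrib := mul0_add_left
    zero_mul := mul0_zero_left
    mul_zero := mul0_zero_right
    mul_assoc := mul0_assoc
    norm_mul_le := mul0_norm }

noncomputable instance : NormedSpace ℂ Alg := inferInstanceAs (NormedSpace ℂ C0)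

instance : CompleteSpace Alg := inferInstanceAs (CompleteSpace C0)

instance : IsScalarTower ℂ Alg Alg where
  smul_assoc k a b := mul0_smul_left k a b

instance : SMulCommClass ℂ Alg Alg where
  smul_comm k a b := (mul0_smul_right k a b).symm

/-- The coordinate `n`. -/
noncomputable def co (n : ℕ) : Alg →L[ℂ] L :=
  LinearMap.mkContinuous
    { toFun := fun f : C0 => f n
      map_add' := fun f g => rfl
      map_smul' := fun k f => rfl } 1 (fun f => by
        rw [one_mul]; exact norm_apply_le f n)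

lemma co_mul (n : ℕ) (a b : Alg) : co n (a * b) = mul n (co n a) (co n b) := rfl

lemma alg_ext {a b : Alg} (h : ∀ n, co n a = co n b) : a = b := by
  exact DFunLike.ext (F := C0) a b h

lemma norm_co_le (n : ℕ) (a : Alg) : ‖co n a‖ ≤ ‖a‖ := norm_apply_le a n

lemma alg_norm_le (a : Alg) (K : ℝ) (hK : 0 ≤ K) (h : ∀ n, ‖co n a‖ ≤ K) : ‖a‖ ≤ K :=
  norm_le_of a K hK h

lemma co_tendsto (a : Alg) : Tendsto (fun n => co n a) atTop (𝓝 0) := tendsto0 a

/-- A null sequence as an element of the algebra. -/
noncomputable def mkA (f : ℕ → L) (h : Tendsto f atTop (𝓝 0)) : Alg := mk0 f h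

@[simp] lemma co_mkA (f : ℕ → L) (h : Tendsto f atTop (𝓝 0)) (n : ℕ) : co n (mkA f h) = f n := rfl

lemma tendsto_of_le (f : ℕ → L) (N : ℕ) (h : ∀ n, N ≤ n → f n = 0) : Tendsto f atTop (𝓝 0) := by
  refine tendsto_const_nhds.congr' ?_
  filter_upwards [eventually_ge_atTop N] with n hn
  exact (h n hn).symm

/-- The embedding of the block `n`. -/
noncomputable def inj (n : ℕ) : L →L[ℂ] Alg :=
  LinearMap.mkContinuous
    { toFun := fun x => mkA (fun k => if k = n then x else 0)
        (tendsto_of_le _ (n + 1) fun k hk => if_neg (by omega))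
      map_add' := fun x y => by
        apply alg_ext
        intro k
        rw [map_add, co_mkA, co_mkA, co_mkA]
        split_ifs <;> simp
      map_smul' := fun r x => by
        apply alg_ext
        intro k
        rw [map_smul, co_mkA, co_mkA]
        split_ifs <;> simp } 1 (fun x => by
        refine alg_norm_le _ _ (by positivity) fun k => ?_
        change ‖(if k = n then x else 0 : L)‖ ≤ 1 * ‖x‖
        split_ifs
        · rw [one_mul]
        · rw [norm_zero]; positivity)

lemma co_inj (n k : ℕ) (x : L) : co k (inj n x) = if k = n then x else 0 := rfl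

/-- The central idempotent of the first `N` blocks. -/
noncomputable def e (N : ℕ) : Alg :=
  mkA (fun n => if n < N then E 0 else 0) (tendsto_of_le _ N fun n hn => if_neg (by omega))

lemma co_e (N n : ℕ) : co n (e N) = if n < N then E 0 else 0 := rfl

lemma co_e_mul (N n : ℕ) (a : Alg) : co n (e N * a) = if n < N then co n a else 0 := by
  rw [co_mul, co_e]
  split_ifs
  · exact one_mul' n _
  · simp

lemma alg_mul_comm (a b : Alg) : a * b = b * a :=
  alg_ext fun n => by rw [co_mul, co_mul, mul_comm']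

lemma e_mul_e (N : ℕ) : e N * e N = e N :=
  alg_ext fun n => by rw [co_e_mul, co_e]; split_ifs <;> rfl

lemma norm_e_mul (N : ℕ) (a : Alg) : ‖e N * a‖ ≤ ‖a‖ := by
  refine alg_norm_le _ _ (norm_nonneg _) fun n => ?_
  rw [co_e_mul]
  split_ifs
  · exact norm_co_le n a
  · rw [norm_zero]; exact norm_nonneg _

lemma norm_sub_e_mul (N : ℕ) (a : Alg) : ‖a - e N * a‖ ≤ ‖a‖ := by
  refine alg_norm_le _ _ (norm_nonneg _) fun n => ?_
  rw [map_sub, co_e_mul]
  split_ifs
  · rw [sub_self, norm_zero]; exact norm_nonneg _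
  · rw [sub_zero]; exact norm_co_le n a

lemma e_mul_tendsto (a : Alg) : Tendsto (fun N => ‖a - e N * a‖) atTop (𝓝 0) := by
  rw [Metric.tendsto_atTop]
  intro ε hε
  have h := co_tendsto a
  rw [Metric.tendsto_atTop] at h
  obtain ⟨N, hN⟩ := h (ε / 2) (half_pos hε)
  refine ⟨N, fun M hM => ?_⟩
  rw [Real.dist_eq, sub_zero, abs_of_nonneg (norm_nonneg _)]
  refine lt_of_le_of_lt (alg_norm_le _ (ε / 2) (half_pos hε).le fun n => ?_) (half_lt_self hε)
  rw [map_sub, co_e_mul]
  split_ifs with h1
  · rw [sub_self, norm_zero]; exact (half_pos hε).le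
  · rw [sub_zero]
    have := hN n (by omega)
    rw [dist_zero_right] at this
    exact this.le

lemma e_mul_eq (N : ℕ) (a : Alg) : e N * a = ∑ n ∈ Finset.range N, inj n (co n a) := by
  apply alg_ext
  intro k
  rw [co_e_mul, map_sum]
  simp only [co_inj]
  rw [Finset.sum_ite_eq (Finset.range N) k]
  simp

end Pool.Agent.Q163.BA
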