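import Mathlib

set_option autoImplicit false

open Filter Topology

namespace Pool.Agent.Q163.BA

section avg

variable {A : Type} [NonUnitalNormedRing A] [NormedSpace ℂ A]
  {X : Type} [NormedAddCommGroup X] [NormedSpace ℂ X]
  {L R : A →L[ℂ] X →L[ℂ] X}
  (hL : ∀ (a b : A) (x : X), L (a * b) x = L a (L b x))
  (hR : ∀ (a b : A) (x : X), R (a * b) x = R b (R a x))
  (hLR : ∀ (a b : A) (x : X), L a (R b x) = R b (L a x))
  {D : A →L[ℂ] (X →L[ℂ] ℂ)}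
  (hD : ∀ a b : A, D (a * b) = (D b).comp (R a) + (D a).comp (L b))

include hD in
lemma hD_apply (a b : A) (x : X) : D (a * b) x = D b (R a x) + D a (L b x) := by
  rw [hD]; rfl

/-- The average over a finite group. -/
noncomputable def avgf {Γ : Type} [Group Γ] [Fintype Γ] (L R : A →L[ℂ] X →L[ℂ] X)
    (D : A →L[ℂ] (X →L[ℂ] ℂ)) (ρ : Γ → A) : X →L[ℂ] ℂ :=
  (Fintype.card Γ : ℂ)⁻¹ • ∑ g, (D (ρ g⁻¹)).comp (R (ρ g)) - (D (ρ 1)).comp (L (ρ 1))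

lemma avgf_apply {Γ : Type} [Group Γ] [Fintype Γ] (ρ : Γ → A) (x : X) :
    avgf L R D ρ x = (Fintype.card Γ : ℂ)⁻¹ * ∑ g, D (ρ g⁻¹) (R (ρ g) x) -
      D (ρ 1) (L (ρ 1) x) := by
  simp [avgf, sub_apply, smul_apply, _root_.sum_apply]

include hL hR hLR hD in
lemma avg_spec {Γ : Type} [Group Γ] [Fintype Γ] (ρ : Γ → A)
    (hρ : ∀ g h, ρ (g * h) = ρ g * ρ h) (h : Γ) (x : X) :
    D (ρ h) x = avgf L R D ρ (R (ρ h) x) - avgf L R D ρ (L (ρ h) x) := by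
  have hρ1 : ρ 1 * ρ h = ρ h := by rw [← hρ, one_mul]
  have hρ2 : ρ h * ρ 1 = ρ h := by rw [← hρ, mul_one]
  have hρ3 : ρ 1 * ρ 1 = ρ 1 := by rw [← hρ, mul_one]
  have hsum : ∑ g, D (ρ g⁻¹) (R (ρ g) (R (ρ h) x)) =
      (Fintype.card Γ : ℂ) * D (ρ h) (R (ρ 1) x) + ∑ g, D (ρ g⁻¹) (R (ρ g) (L (ρ h) x)) := by
    have h1 : ∑ g, D (ρ g⁻¹) (R (ρ g) (R (ρ h) x)) =
        ∑ k, D (ρ (k⁻¹ * h)) (R (ρ k) x) := by
      refine Fintype.sum_equiv (Equiv.mulLeft h) _ _ fun g => ?_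
      rw [← hR, ← hρ, Equiv.coe_mulLeft]
      congr 3
      group
    rw [h1]
    have h2 : ∀ k : Γ, D (ρ (k⁻¹ * h)) (R (ρ k) x) =
        D (ρ h) (R (ρ 1) x) + D (ρ k⁻¹) (R (ρ k) (L (ρ h) x)) := by
      intro k
      rw [hρ, hD_apply hD, ← hR, ← hρ, mul_inv_cancel, hLR]
    rw [Finset.sum_congr rfl fun k _ => h2 k, Finset.sum_add_distrib, Finset.sum_const,
      Finset.card_univ, nsmul_eq_mul]
  have hz : D (ρ 1) (L (ρ 1) (R (ρ h) x)) = 0 := by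
    have h1 := hD_apply hD (ρ h) (ρ 1) (L (ρ 1) x)
    rw [hρ2, ← hL, hρ3] at h1
    rw [hLR]
    have h2 : D (ρ h) (L (ρ 1) x) = D (ρ 1) (R (ρ h) (L (ρ 1) x)) + D (ρ h) (L (ρ 1) x) := h1
    have h3 : D (ρ 1) (R (ρ h) (L (ρ 1) x)) = 0 := by
      have := sub_eq_zero.2 h2
      simpa using this
    exact h3
  have hy : D (ρ 1) (L (ρ 1) (L (ρ h) x)) = D (ρ 1) (L (ρ h) x) := by
    rw [← hL, hρ1]
  have hc : (Fintype.card Γ : ℂ) ≠ 0 := by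
    exact_mod_cast Fintype.card_ne_zero
  rw [avgf_apply, avgf_apply, hsum, hz, hy]
  have hfin := hD_apply hD (ρ 1) (ρ h) x
  rw [hρ1] at hfin
  rw [hfin]
  field_simp
  ring

lemma avg_norm {Γ : Type} [Group Γ] [Fintype Γ] (ρ : Γ → A) (K : ℝ) (hK : 0 ≤ K)
    (hρK : ∀ g, ‖ρ g‖ ≤ K) :
    ‖avgf L R D ρ‖ ≤ (‖D‖ * K) * (‖R‖ * K) + (‖D‖ * K) * (‖L‖ * K) := by
  have hDK : ∀ g, ‖D (ρ g)‖ ≤ ‖D‖ * K := fun g =>
    (D.le_opNorm _).trans (by gcongr; exact hρK g)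
  have hRK : ∀ g, ‖R (ρ g)‖ ≤ ‖R‖ * K := fun g =>
    (R.le_opNorm _).trans (by gcongr; exact hρK g)
  have hLK : ∀ g, ‖L (ρ g)‖ ≤ ‖L‖ * K := fun g =>
    (L.le_opNorm _).trans (by gcongr; exact hρK g)
  have hc : (0 : ℝ) < Fintype.card Γ := by exact_mod_cast Fintype.card_pos
  have h1 : ‖(Fintype.card Γ : ℂ)⁻¹ • ∑ g, (D (ρ g⁻¹)).comp (R (ρ g))‖ ≤
      (‖D‖ * K) * (‖R‖ * K) := by
    rw [norm_smul, norm_inv, Complex.norm_natCast, inv_mul_le_iff₀ hc]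
    refine (norm_sum_le _ _).trans ?_
    refine (Finset.sum_le_card_nsmul _ _ ((‖D‖ * K) * (‖R‖ * K)) fun g _ => ?_).trans ?_
    · refine (ContinuousLinearMap.opNorm_comp_le _ _).trans ?_
      exact mul_le_mul (hDK _) (hRK _) (norm_nonneg _) (by positivity)
    · rw [nsmul_eq_mul, Finset.card_univ]
  have h2 : ‖(D (ρ 1)).comp (L (ρ 1))‖ ≤ (‖D‖ * K) * (‖L‖ * K) :=
    (ContinuousLinearMap.opNorm_comp_le _ _).trans
      (mul_le_mul (hDK _) (hLK _) (norm_nonneg _) (by positivity))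
  exact (norm_sub_le _ _).trans (add_le_add h1 h2)

include hL hR hLR hD in
lemma exists_inner (Γ : ℕ → Type) [∀ m, Group (Γ m)] [∀ m, Fintype (Γ m)] (ρ : ∀ m, Γ m → A)
    (hρ : ∀ m g h, ρ m (g * h) = ρ m g * ρ m h) (K : ℝ) (hK : 0 ≤ K)
    (hρK : ∀ m g, ‖ρ m g‖ ≤ K) :
    ∃ f : X →L[ℂ] ℂ, ∀ a : A, (∀ᶠ m in atTop, a ∈ Set.range (ρ m)) →
      ∀ x, D a x = f (R a x) - f (L a x) := by
  set M := (‖D‖ * K) * (‖R‖ * K) + (‖D‖ * K) * (‖L‖ * K) with hM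
  set F : ℕ → WeakDual ℂ X := fun m => StrongDual.toWeakDual (avgf L R D (ρ m)) with hF
  have hcomp := WeakDual.isCompact_closedBall (𝕜 := ℂ) (0 : StrongDual ℂ X) M
  obtain ⟨f, -, hf⟩ := hcomp.ultrafilter_le_nhds ((hyperfilter ℕ).map F) (by
    rw [le_principal_iff, Ultrafilter.coe_map, Filter.mem_map]
    refine Filter.univ_mem' fun m => ?_
    change avgf L R D (ρ m) ∈ Metric.closedBall (0 : StrongDual ℂ X) M
    rw [mem_closedBall_zero_iff]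
    exact avg_norm (ρ m) K hK (hρK m))
  have hev : ∀ x : X, Tendsto (fun m => avgf L R D (ρ m) x) (hyperfilter ℕ) (𝓝 (f x)) := by
    intro x
    have h1 : Tendsto F (hyperfilter ℕ) (𝓝 f) := hf
    exact ((WeakDual.eval_continuous x).tendsto f).comp h1
  refine ⟨WeakDual.toStrongDual f, fun a ha x => ?_⟩
  have h1 : Tendsto (fun m => avgf L R D (ρ m) (R a x) - avgf L R D (ρ m) (L a x))
      (hyperfilter ℕ) (𝓝 (f (R a x) - f (L a x))) := (hev _).sub (hev _)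
  have h2 : Tendsto (fun m => avgf L R D (ρ m) (R a x) - avgf L R D (ρ m) (L a x))
      (hyperfilter ℕ) (𝓝 (D a x)) := by
    refine tendsto_const_nhds.congr' ?_
    have h3 : ∀ᶠ m in (hyperfilter ℕ : Filter ℕ), a ∈ Set.range (ρ m) :=
      Nat.hyperfilter_le_atTop ha
    filter_upwards [h3] with m hm
    obtain ⟨g, rfl⟩ := hm
    exact avg_spec hL hR hLR hD (ρ m) (hρ m) g x
  exact tendsto_nhds_unique h2 h1

end avg

end Pool.Agent.Q163.BA
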