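import Mathlib

set_option autoImplicit false

open Filter Topology

namespace Pool.Agent.Q163.BA

/-- Absolutely summable functions. -/
abbrev L1 (S : Type) : Type := lp (fun _ : S => ℂ) 1

variable {S : Type}

open Classical in
/-- Unit vectors. -/
noncomputable def E (s : S) : L1 S := lp.single 1 s (1 : ℂ)

lemma E_apply_self (s : S) : (E s : L1 S) s = 1 := by
  classical
  unfold E
  exact lp.single_apply_self _ _ _

lemma E_apply_ne {s t : S} (h : t ≠ s) : (E s : L1 S) t = 0 := by
  classical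
  unfold E
  exact lp.single_apply_ne _ _ _ h

lemma norm_E (s : S) : ‖E s‖ = 1 := by
  classical
  unfold E
  rw [lp.norm_single (by norm_num)]
  simp

lemma summable_norm (a : L1 S) : Summable fun s => ‖a s‖ := by
  simpa using (lp.memℓp a).summable (by norm_num)

lemma norm_eq (a : L1 S) : ‖a‖ = ∑' s, ‖a s‖ := by
  rw [lp.norm_eq_tsum_rpow (by norm_num)]
  simp

lemma sum_le_norm (a : L1 S) (F : Finset S) : ∑ s ∈ F, ‖a s‖ ≤ ‖a‖ := by
  rw [norm_eq]
  exact (summable_norm a).sum_le_tsum F (fun _ _ => norm_nonneg _)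

lemma norm_le_of_sum_le (a : L1 S) (K : ℝ) (h : ∀ F : Finset S, ∑ s ∈ F, ‖a s‖ ≤ K) :
    ‖a‖ ≤ K := by
  rw [norm_eq]
  exact (summable_norm a).tsum_le_of_sum_le h

section lift

variable {W : Type*} [NormedAddCommGroup W] [NormedSpace ℂ W] [CompleteSpace W]

lemma summable_smul (a : L1 S) (ψ : S → W) (C : ℝ) (h : ∀ s, ‖ψ s‖ ≤ C) :
    Summable fun s => a s • ψ s := by
  refine Summable.of_norm_bounded ((summable_norm a).mul_right C) ?_
  intro s
  rw [norm_smul]
  exact mul_le_mul_of_nonneg_left (h s) (norm_nonneg _)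

/-- The continuous linear map with prescribed bounded values on the unit vectors. -/
noncomputable def lift (ψ : S → W) (C : ℝ) (h : ∀ s, ‖ψ s‖ ≤ C) : L1 S →L[ℂ] W :=
  LinearMap.mkContinuous
    { toFun := fun a => ∑' s, a s • ψ s
      map_add' := by
        intro a b
        rw [← (summable_smul a ψ C h).tsum_add (summable_smul b ψ C h)]
        refine tsum_congr fun s => ?_
        rw [lp.coeFn_add, Pi.add_apply, add_smul]
      map_smul' := by
        intro c a
        rw [RingHom.id_apply, ← (summable_smul a ψ C h).tsum_const_smul c]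
        refine tsum_congr fun s => ?_
        rw [lp.coeFn_smul, Pi.smul_apply, smul_assoc] } C (by
    intro a
    change ‖∑' s, a s • ψ s‖ ≤ C * ‖a‖
    have h1 : Summable fun s => ‖a s • ψ s‖ := by
      refine Summable.of_nonneg_of_le (fun _ => norm_nonneg _) (fun s => ?_)
        ((summable_norm a).mul_right C)
      rw [norm_smul]
      exact mul_le_mul_of_nonneg_left (h s) (norm_nonneg _)
    refine (norm_tsum_le_tsum_norm h1).trans ?_
    rw [norm_eq, mul_comm, ← tsum_mul_right]
    refine h1.tsum_le_tsum (fun s => ?_) ((summable_norm a).mul_right C)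
    rw [norm_smul]
    exact mul_le_mul_of_nonneg_left (h s) (norm_nonneg _))

lemma lift_apply (ψ : S → W) (C : ℝ) (h : ∀ s, ‖ψ s‖ ≤ C) (a : L1 S) :
    lift ψ C h a = ∑' s, a s • ψ s := rfl

@[simp] lemma lift_E (ψ : S → W) (C : ℝ) (h : ∀ s, ‖ψ s‖ ≤ C) (s : S) :
    lift ψ C h (E s) = ψ s := by
  rw [lift_apply, tsum_eq_single s]
  · rw [E_apply_self, one_smul]
  · intro t ht
    rw [E_apply_ne ht, zero_smul]

lemma norm_lift_le (ψ : S → W) (C : ℝ) (h : ∀ s, ‖ψ s‖ ≤ C) (hC : 0 ≤ C) :
    ‖lift ψ C h‖ ≤ C :=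
  LinearMap.mkContinuous_norm_le _ hC _

end lift

lemma hasSum_E (a : L1 S) : HasSum (fun s => a s • E s) a := by
  classical
  have h := lp.hasSum_single (p := 1) (by norm_num) a
  have h2 : (fun s => lp.single (E := fun _ : S => ℂ) 1 s (a s)) = fun s => a s • E s := by
    funext s
    apply lp.ext
    funext t
    by_cases hts : t = s
    · subst hts
      rw [lp.single_apply_self, lp.coeFn_smul, Pi.smul_apply, E_apply_self, smul_eq_mul, mul_one]
    · rw [lp.single_apply_ne _ _ _ hts, lp.coeFn_smul, Pi.smul_apply, E_apply_ne hts, smul_zero]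
  rwa [h2] at h

lemma clm_eq {W : Type*} [NormedAddCommGroup W] [NormedSpace ℂ W] (T : L1 S →L[ℂ] W) (a : L1 S) :
    T a = ∑' s, a s • T (E s) := by
  have h := (hasSum_E a).mapL T
  simp only [map_smul] at h
  exact h.tsum_eq.symm

lemma clm_ext {W : Type*} [NormedAddCommGroup W] [NormedSpace ℂ W] (f g : L1 S →L[ℂ] W)
    (h : ∀ s, f (E s) = g (E s)) (a : L1 S) : f a = g a := by
  rw [clm_eq f, clm_eq g]
  exact tsum_congr fun s => by rw [h s]

end Pool.Agent.Q163.BA
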