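import Pool.Agent.Q163.BA.Alg

set_option autoImplicit false

open Filter Topology

namespace Pool.Agent.Q163.BA

/-- `S x a`: in the block `n`, the vector `a n` times the augmentation of `x n`. -/
noncomputable def scal0 (x a : Alg) : Alg :=
  mkA (fun n => χ n (co n x) • co n a) (by
    refine squeeze_zero_norm (a := fun n => ‖co n x‖ * ‖co n a‖) (fun n => ?_) ?_
    · rw [norm_smul]
      exact mul_le_mul_of_nonneg_right (norm_χ_le n _) (norm_nonneg _)
    · have h1 := (co_tendsto x).norm.mul (co_tendsto a).norm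
      simpa using h1)

lemma co_scal0 (x a : Alg) (n : ℕ) : co n (scal0 x a) = χ n (co n x) • co n a := rfl

/-- The bilinear map `scal0`. -/
noncomputable def scal : Alg →L[ℂ] Alg →L[ℂ] Alg :=
  LinearMap.mkContinuous₂ (LinearMap.mk₂ ℂ scal0
    (fun x y a => alg_ext fun n => by
      simp only [co_scal0, map_add, add_smul])
    (fun k x a => alg_ext fun n => by
      simp only [co_scal0, map_smul, smul_smul, smul_eq_mul])
    (fun x a b => alg_ext fun n => by
      simp only [co_scal0, map_add, smul_add])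
    (fun k x a => alg_ext fun n => by
      simp only [co_scal0, map_smul]
      rw [smul_comm])) 1 (fun x a => by
    rw [LinearMap.mk₂_apply, one_mul]
    refine alg_norm_le _ _ (by positivity) fun n => ?_
    rw [co_scal0, norm_smul]
    exact mul_le_mul ((norm_χ_le n _).trans (norm_co_le n x)) (norm_co_le n a) (norm_nonneg _)
      (norm_nonneg _))

lemma co_scal (x a : Alg) (n : ℕ) : co n (scal x a) = χ n (co n x) • co n a := rfl

/-- The left action. -/
noncomputable def Ln : Alg →L[ℂ] Alg →L[ℂ] Alg := ContinuousLinearMap.mul ℂ Alg - scal.flip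

lemma co_Ln (a x : Alg) (n : ℕ) :
    co n (Ln a x) = mul n (co n a) (co n x) - χ n (co n x) • co n a := rfl

lemma Ln_mul (a b x : Alg) : Ln (a * b) x = Ln a (Ln b x) := by
  apply alg_ext
  intro n
  simp only [co_Ln, co_mul, map_sub, map_smul, χ_mul, mul_assoc', smul_eq_mul]
  rw [mul_comm (χ n (co n x)), sub_self, zero_smul, sub_zero]

lemma Rn_mul (a b x : Alg) : scal (a * b) x = scal b (scal a x) := by
  apply alg_ext
  intro n
  simp only [co_scal, co_mul, χ_mul, smul_smul]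
  rw [mul_comm]

lemma LRn (a b x : Alg) : Ln a (scal b x) = scal b (Ln a x) := by
  apply alg_ext
  intro n
  simp only [co_Ln, co_scal, map_smul, smul_sub, smul_smul, smul_eq_mul]

lemma Dn (a b : Alg) : ContinuousLinearMap.id ℂ Alg (a * b) =
    Ln a (ContinuousLinearMap.id ℂ Alg b) + scal b (ContinuousLinearMap.id ℂ Alg a) := by
  apply alg_ext
  intro n
  simp only [ContinuousLinearMap.id_apply, map_add, co_Ln, co_scal, co_mul, sub_add_cancel]

/-! The shift to infinity. -/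

lemma add_self_G (h : G) : h + h = 0 := CharTwo.add_self_eq_zero h

lemma w_add_H (n : ℕ) (h k : G) (hh : h.coeff 0 = 0) : w n (h + k) = w n k := by
  simp [w, hh]

lemma shift_apply (n : ℕ) (h : G) (hh : h.coeff 0 = 0) (x : L) (g : G) :
    (mul n (E h) x) g = x (g + h) := by
  refine clm_ext ((lp.evalCLM ℂ (fun _ : G => ℂ) 1 g).comp (mul n (E h)))
    (lp.evalCLM ℂ (fun _ : G => ℂ) 1 (g + h)) (fun k => ?_) x
  change (mul n (E h) (E k)) g = (E k : L) (g + h)
  have hc : c n h k = 1 := by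
    have hw : w n h = 1 := by simp [w, hh]
    rw [c, w_add_H n h k hh, hw, one_mul, div_self (w_ne n k), Complex.ofReal_one]
  rw [mul_E, hc, one_smul]
  by_cases hk : g = h + k
  · have h2 : g + h = k := by rw [hk, add_right_comm, add_self_G, zero_add]
    rw [h2, E_apply_self, hk, E_apply_self]
  · have h2 : g + h ≠ k := by
      intro h3
      apply hk
      rw [← h3, add_left_comm, add_self_G, add_zero]
    rw [E_apply_ne hk, E_apply_ne h2]

lemma shift_bound (n : ℕ) (x : L) (K : ℝ)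
    (hx : ∀ h : G, h.coeff 0 = 0 → ‖mul n (E h) x - x‖ ≤ K) : ‖x‖ ≤ K := by
  refine norm_le_of_sum_le x K fun F => ?_
  have h1 : ∀ j : ℕ, ∑ g ∈ F, ‖x (g + Polynomial.X ^ (j + 1)) - x g‖ ≤ K := by
    intro j
    have h2 := hx (Polynomial.X ^ (j + 1)) (by simp [Polynomial.coeff_X_pow])
    refine le_trans (le_of_eq ?_) ((sum_le_norm (mul n (E (Polynomial.X ^ (j + 1))) x - x) F).trans
      h2)
    refine Finset.sum_congr rfl fun g _ => ?_
    rw [lp.coeFn_sub, Pi.sub_apply, shift_apply n _ (by simp [Polynomial.coeff_X_pow])]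
  have h3 : Tendsto (fun j : ℕ => ∑ g ∈ F, ‖x (g + Polynomial.X ^ (j + 1)) - x g‖) atTop
      (𝓝 (∑ g ∈ F, ‖0 - x g‖)) := by
    refine tendsto_finsetSum _ fun g _ => ?_
    refine (Tendsto.sub ?_ tendsto_const_nhds).norm
    have h4 : Tendsto (fun k : G => x k) cofinite (𝓝 0) := by
      rw [tendsto_zero_iff_norm_tendsto_zero]
      exact (summable_norm x).tendsto_cofinite_zero
    have h5 : Function.Injective fun j : ℕ => g + (Polynomial.X : G) ^ (j + 1) := by
      intro i j hij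
      have h6 : (Polynomial.X : G) ^ (i + 1) = Polynomial.X ^ (j + 1) := add_left_cancel hij
      have h7 := congrArg Polynomial.natDegree h6
      rw [Polynomial.natDegree_X_pow, Polynomial.natDegree_X_pow] at h7
      omega
    have h8 := h5.tendsto_cofinite
    rw [Nat.cofinite_eq_atTop] at h8
    exact h4.comp h8
  have h4 := le_of_tendsto h3 (Eventually.of_forall h1)
  simpa using h4

/-- The part of the augmentation on the subgroup. -/
noncomputable def σ0 : L →L[ℂ] ℂ := lift (fun g => if g.coeff 0 = 0 then 1 else 0) 1 (fun g => by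
  split_ifs <;> simp)

/-- The part of the augmentation off the subgroup. -/
noncomputable def σ1 (n : ℕ) : L →L[ℂ] ℂ :=
  lift (fun g => if g.coeff 0 = 0 then 0 else ((((n : ℝ) + 1)⁻¹ : ℝ) : ℂ)) ((n : ℝ) + 1)⁻¹
    (fun g => by
      have : (0 : ℝ) < (n : ℝ) + 1 := by positivity
      split_ifs
      · rw [norm_zero]; positivity
      · rw [Complex.norm_real, Real.norm_eq_abs, abs_of_pos (by positivity)])

lemma σ1_norm (n : ℕ) (x : L) : ‖σ1 n x‖ ≤ ((n : ℝ) + 1)⁻¹ * ‖x‖ := by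
  have h0 : (0 : ℝ) ≤ ((n : ℝ) + 1)⁻¹ := by positivity
  refine ((σ1 n).le_opNorm x).trans ?_
  gcongr
  exact norm_lift_le _ _ _ h0

lemma χ_eq (n : ℕ) (x : L) : χ n x = σ0 x + σ1 n x := by
  refine clm_ext (χ n) (σ0 + σ1 n) (fun g => ?_) x
  rw [add_apply, χ_E, σ0, σ1, lift_E, lift_E, w]
  split_ifs <;> simp

lemma coeff_one_G : (1 : G).coeff 0 = 1 := by simp

lemma σ1_mul (n : ℕ) (x : L) :
    σ1 n (mul n (E 1) x) = ((((n : ℝ) + 1)⁻¹ : ℝ) : ℂ) * σ0 x := by
  refine clm_ext ((σ1 n).comp (mul n (E 1))) (((((n : ℝ) + 1)⁻¹ : ℝ) : ℂ) • σ0) (fun k => ?_) x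
  have hn : ((n : ℝ) + 1) ≠ 0 := by positivity
  change σ1 n (mul n (E 1) (E k)) = ((((n : ℝ) + 1)⁻¹ : ℝ) : ℂ) * σ0 (E k)
  rw [mul_E, map_smul, σ1, σ0, lift_E, lift_E, smul_eq_mul]
  have h1 : ((1 : G) + k).coeff 0 = 1 + k.coeff 0 := by simp
  by_cases hk : k.coeff 0 = 0
  · have h2 : ¬ ((1 : G) + k).coeff 0 = 0 := by rw [h1, hk]; decide
    have hc : c n 1 k = 1 := by
      unfold c w
      rw [if_neg h2, if_neg (by rw [coeff_one_G]; decide), if_pos hk, mul_one, div_self hn,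
        Complex.ofReal_one]
    rw [if_neg h2, if_pos hk, hc, one_mul, mul_one]
  · have hz : ∀ z : ZMod 2, z ≠ 0 → z = 1 := by decide
    have hk1 : k.coeff 0 = 1 := hz _ hk
    have h2 : ((1 : G) + k).coeff 0 = 0 := by rw [h1, hk1]; decide
    rw [if_pos h2, if_neg hk, mul_zero, mul_zero]

/-- The identity is a derivation for the actions `Ln`, `scal`, and it is not boundedly
approximately inner. -/
theorem neg : ¬ ∃ C : ℝ, ∀ (F : Finset Alg) (ε : ℝ), 0 < ε → ∃ ξ : Alg,
    (∀ a : Alg, ‖Ln a ξ - scal a ξ‖ ≤ C * ‖a‖) ∧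
      ∀ a ∈ F, ‖ContinuousLinearMap.id ℂ Alg a - (Ln a ξ - scal a ξ)‖ < ε := by
  classical
  rintro ⟨C, hC⟩
  obtain ⟨n, hn⟩ := exists_nat_gt (4 * (C + 2))
  have hn0 : (0 : ℝ) < (n : ℝ) + 1 := by positivity
  obtain ⟨ξ, h1, h2⟩ := hC {inj n (E 0), inj n (E 1)} (1 / 6) (by norm_num)
  set x := co n ξ with hx
  have hcoinj : ∀ b : L, co n (inj n b) = b := fun b => by rw [co_inj, if_pos rfl]
  have hinj : ∀ b : L, ‖inj n b‖ ≤ ‖b‖ := by
    intro b
    refine alg_norm_le _ _ (norm_nonneg _) fun k => ?_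
    rw [co_inj]
    split_ifs
    · exact le_refl _
    · rw [norm_zero]; exact norm_nonneg _
  have hC0 : 0 ≤ C := by
    have h3 := h1 (inj n (E 0))
    have h4 : 0 < ‖inj n (E 0)‖ := by
      rw [norm_pos_iff]
      intro h
      have h5 := hcoinj (E 0)
      rw [h, map_zero] at h5
      have h6 := norm_E (0 : G)
      rw [← h5, norm_zero] at h6
      exact one_ne_zero h6.symm
    by_contra hneg
    push Not at hneg
    have := mul_neg_of_neg_of_pos hneg h4
    linarith [norm_nonneg (Ln (inj n (E 0)) ξ - scal (inj n (E 0)) ξ)]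
  -- the block estimates
  have k1 : ∀ b : L, ‖mul n b x - χ n x • b - χ n b • x‖ ≤ C * ‖b‖ := by
    intro b
    have h3 := (norm_co_le n _).trans (h1 (inj n b))
    rw [map_sub, co_Ln, co_scal, hcoinj] at h3
    exact h3.trans (by gcongr; exact hinj b)
  have k2 : ∀ b : L, (inj n b ∈ ({inj n (E 0), inj n (E 1)} : Finset Alg)) →
      ‖b - (mul n b x - χ n x • b - χ n b • x)‖ < 1 / 6 := by
    intro b hb
    have h3 := (norm_co_le n _).trans_lt (h2 (inj n b) hb)
    rw [map_sub, map_sub, co_Ln, co_scal, ContinuousLinearMap.id_apply, hcoinj] at h3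
    exact h3
  have hχ0 : χ n (E 0) = 1 := by rw [χ_E, w_zero]; simp
  have hχH : ∀ h : G, h.coeff 0 = 0 → χ n (E h) = 1 := by
    intro h hh
    rw [χ_E, w, if_pos hh]; simp
  have hw1 : w n 1 = (n : ℝ) + 1 := by
    rw [w, if_neg (by rw [coeff_one_G]; decide)]
  have e0 : ‖1 + χ n x‖ < 1 / 6 := by
    have h3 := k2 (E 0) (by simp)
    rw [one_mul', hχ0, one_smul] at h3
    have h4 : E (0 : G) - (x - χ n x • E 0 - x) = (1 + χ n x) • E 0 := by
      rw [add_smul, one_smul]; abel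
    rw [h4, norm_smul, norm_E, mul_one] at h3
    exact h3
  have hχx : ‖χ n x‖ ≤ 2 := by
    have h3 : χ n x = (1 + χ n x) - 1 := by ring
    rw [h3]
    refine (norm_sub_le _ _).trans ?_
    rw [norm_one]; linarith
  have e1 : ‖mul n (E 1) x - ((((n : ℝ) + 1)⁻¹ : ℝ) : ℂ) • x‖ ≤ 1 / 3 := by
    have h3 := k2 (E 1) (by simp)
    rw [χ_E, hw1] at h3
    have h4 : mul n (E 1) x - ((((n : ℝ) + 1)⁻¹ : ℝ) : ℂ) • x =
        (1 + χ n x) • E 1 - (E 1 - (mul n (E 1) x - χ n x • E 1 -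
          ((((n : ℝ) + 1)⁻¹ : ℝ) : ℂ) • x)) := by
      rw [add_smul, one_smul]; abel
    rw [h4]
    refine (norm_sub_le _ _).trans ?_
    rw [norm_smul, norm_E, mul_one]
    linarith
  have hxb : ‖x‖ ≤ C + 2 := by
    refine shift_bound n x _ fun h hh => ?_
    have h3 := k1 (E h)
    rw [hχH h hh, one_smul, norm_E, mul_one] at h3
    have h4 : mul n (E h) x - x = (mul n (E h) x - χ n x • E h - x) + χ n x • E h := by abel
    rw [h4]
    refine (norm_add_le _ _).trans ?_
    rw [norm_smul, norm_E, mul_one]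
    linarith
  -- conclusion
  have s1 : ‖σ1 n x‖ ≤ ((n : ℝ) + 1)⁻¹ * (C + 2) :=
    (σ1_norm n x).trans (by gcongr)
  have s2 : ‖σ0 x - σ1 n x‖ ≤ 1 / 3 := by
    have h3 := (σ1_norm n (mul n (E 1) x - ((((n : ℝ) + 1)⁻¹ : ℝ) : ℂ) • x)).trans
      (mul_le_mul_of_nonneg_left e1 (by positivity))
    rw [map_sub, map_smul, σ1_mul, smul_eq_mul, ← mul_sub, norm_mul, Complex.norm_real,
      Real.norm_eq_abs, abs_of_pos (inv_pos.2 hn0)] at h3
    exact le_of_mul_le_mul_left h3 (inv_pos.2 hn0)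
  have s3 : ((n : ℝ) + 1)⁻¹ * (C + 2) < 1 / 4 := by
    rw [inv_mul_lt_iff₀ hn0]
    linarith
  have s4 : χ n x = (σ0 x - σ1 n x) + (σ1 n x + σ1 n x) := by rw [χ_eq]; ring
  have s5 : ‖χ n x‖ < 5 / 6 := by
    rw [s4]
    refine (norm_add_le _ _).trans_lt ?_
    have := norm_add_le (σ1 n x) (σ1 n x)
    linarith
  have s6 : (1 : ℝ) ≤ ‖1 + χ n x‖ + ‖χ n x‖ := by
    have h3 : (1 : ℂ) = (1 + χ n x) - χ n x := by ring
    calc (1 : ℝ) = ‖(1 : ℂ)‖ := by rw [norm_one]
      _ = ‖(1 + χ n x) - χ n x‖ := by rw [← h3]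
      _ ≤ _ := norm_sub_le _ _
  linarith

end Pool.Agent.Q163.BA
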