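import Pool.Agent.Q163.BA.Alg
import Pool.Agent.Q163.BA.Avg

set_option autoImplicit false

open Filter Topology

namespace Pool.Agent.Q163.BA

noncomputable instance instFintypeDeg (m : ℕ) : Fintype (Polynomial.degreeLT (ZMod 2) m) :=
  Fintype.ofEquiv _ (Polynomial.degreeLTEquiv (ZMod 2) m).toEquiv.symm

/-- The finite groups used for averaging. -/
abbrev Gam (N m : ℕ) : Type := (Fin N → ℤˣ) × Multiplicative (Polynomial.degreeLT (ZMod 2) m)

/-- A sign in each of the first `N` blocks times the group element `g`. -/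
noncomputable def el (N : ℕ) (ε : Fin N → ℤˣ) (g : G) : Alg :=
  mkA (fun k => if h : k < N then (((ε ⟨k, h⟩ : ℤˣ) : ℤ) : ℂ) • (((w k g : ℝ) : ℂ) • E g) else 0)
    (tendsto_of_le _ N fun n hn => dif_neg (by omega))

lemma co_el (N : ℕ) (ε : Fin N → ℤˣ) (g : G) (k : ℕ) : co k (el N ε g) =
    if h : k < N then (((ε ⟨k, h⟩ : ℤˣ) : ℤ) : ℂ) • (((w k g : ℝ) : ℂ) • E g) else 0 := rfl

lemma w_c (n : ℕ) (g h : G) :
    ((w n g : ℝ) : ℂ) * ((w n h : ℝ) : ℂ) * c n g h = ((w n (g + h) : ℝ) : ℂ) := by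
  have h1 := w_neC n g
  have h2 := w_neC n h
  unfold c
  push_cast
  field_simp

lemma el_mul (N : ℕ) (ε ε' : Fin N → ℤˣ) (g g' : G) :
    el N (ε * ε') (g + g') = el N ε g * el N ε' g' := by
  apply alg_ext
  intro k
  rw [co_mul, co_el, co_el, co_el]
  by_cases h : k < N
  · simp only [h, dif_pos, map_smul, smul_apply, mul_E, Pi.mul_apply, Units.val_mul, Int.cast_mul,
      smul_smul]
    rw [← w_c]
    congr 1
    ring
  · simp [h]

lemma norm_unit (u : ℤˣ) : ‖(((u : ℤˣ) : ℤ) : ℂ)‖ = 1 := by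
  rcases Int.units_eq_one_or u with h | h <;> simp [h]

lemma norm_el (N : ℕ) (ε : Fin N → ℤˣ) (g : G) : ‖el N ε g‖ ≤ N := by
  refine alg_norm_le _ _ (Nat.cast_nonneg N) fun k => ?_
  rw [co_el]
  split_ifs with h
  · rw [norm_smul, norm_smul, norm_E, norm_unit, one_mul, mul_one, Complex.norm_real,
      Real.norm_eq_abs, abs_of_pos (w_pos k g)]
    refine (w_le k g).trans ?_
    exact_mod_cast h
  · rw [norm_zero]; exact Nat.cast_nonneg N

lemma el_sub (N n : ℕ) (hn : n < N) (g : G) :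
    el N 1 g - el N (Function.update 1 ⟨n, hn⟩ (-1)) g =
      (2 * ((w n g : ℝ) : ℂ)) • inj n (E g) := by
  apply alg_ext
  intro k
  rw [map_sub, map_smul, co_el, co_el, co_inj]
  by_cases h : k < N
  · simp only [h, dif_pos]
    by_cases hk : k = n
    · subst hk
      simp only [Pi.one_apply, Units.val_one, Int.cast_one, one_smul, Function.update_self,
        Units.val_neg, Int.cast_neg, neg_smul, if_true, sub_neg_eq_add]
      rw [← two_smul ℂ, smul_smul]
    · have h2 : (⟨k, h⟩ : Fin N) ≠ ⟨n, hn⟩ := fun h3 => hk (congrArg Fin.val h3)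
      simp [hk]
  · have hk : k ≠ n := by omega
    simp [h, hk]

/-- The homomorphism of the finite group into the algebra. -/
noncomputable def rho (N m : ℕ) (γ : Gam N m) : Alg :=
  el N γ.1 ((Multiplicative.toAdd γ.2 : Polynomial.degreeLT (ZMod 2) m) : G)

lemma rho_mul (N m : ℕ) (γ γ' : Gam N m) : rho N m (γ * γ') = rho N m γ * rho N m γ' := by
  unfold rho
  rw [← el_mul]
  rfl

lemma mem_range_rho (N : ℕ) (ε : Fin N → ℤˣ) (g : G) :
    ∀ᶠ m in atTop, el N ε g ∈ Set.range (rho N m) := by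
  filter_upwards [eventually_gt_atTop g.natDegree] with m hm
  have hg : g ∈ Polynomial.degreeLT (ZMod 2) m := by
    rw [Polynomial.mem_degreeLT]
    exact lt_of_le_of_lt Polynomial.degree_le_natDegree (by exact_mod_cast hm)
  exact ⟨(ε, Multiplicative.ofAdd ⟨g, hg⟩), rfl⟩

section pos

variable {X : Type} [NormedAddCommGroup X] [NormedSpace ℂ X]
  {L' R' : Alg →L[ℂ] X →L[ℂ] X}
  (hL : ∀ (a b : Alg) (x : X), L' (a * b) x = L' a (L' b x))
  (hR : ∀ (a b : Alg) (x : X), R' (a * b) x = R' b (R' a x))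
  (hLR : ∀ (a b : Alg) (x : X), L' a (R' b x) = R' b (L' a x))
  {D : Alg →L[ℂ] (X →L[ℂ] ℂ)}
  (hD : ∀ a b : Alg, D (a * b) = (D b).comp (R' a) + (D a).comp (L' b))

include hL hR hLR hD in
lemma inner_block (N : ℕ) : ∃ f : X →L[ℂ] ℂ, ∀ n < N, ∀ (y : L) (x : X),
    D (inj n y) x = f (R' (inj n y) x) - f (L' (inj n y) x) := by
  obtain ⟨f, hf⟩ := exists_inner hL hR hLR hD (Gam N) (rho N) (rho_mul N) N (Nat.cast_nonneg N)
    (fun m γ => norm_el N _ _)
  refine ⟨f, fun n hn y x => ?_⟩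
  have hE : ∀ g : G, ∀ x : X, D (inj n (E g)) x =
      f (R' (inj n (E g)) x) - f (L' (inj n (E g)) x) := by
    intro g x
    have h1 := hf _ (mem_range_rho N 1 g) x
    have h2 := hf _ (mem_range_rho N (Function.update 1 ⟨n, hn⟩ (-1)) g) x
    have h3 := el_sub N n hn g
    have h4 : D ((2 * ((w n g : ℝ) : ℂ)) • inj n (E g)) x =
        f (R' ((2 * ((w n g : ℝ) : ℂ)) • inj n (E g)) x) -
          f (L' ((2 * ((w n g : ℝ) : ℂ)) • inj n (E g)) x) := by
      rw [← h3]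
      simp only [map_sub, sub_apply, h1, h2]
      ring
    simp only [map_smul, smul_apply, smul_eq_mul] at h4
    have h5 : (2 * ((w n g : ℝ) : ℂ)) ≠ 0 := mul_ne_zero two_ne_zero (w_neC n g)
    rw [← mul_sub] at h4
    exact mul_left_cancel₀ h5 h4
  have h6 := clm_ext ((D.comp (inj n)).flip x)
    ((f.comp (R'.flip x - L'.flip x)).comp (inj n)) (fun g => by
      change D (inj n (E g)) x = f (R' (inj n (E g)) x - L' (inj n (E g)) x)
      rw [map_sub]
      exact hE g x) y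
  change D (inj n y) x = f (R' (inj n y) x - L' (inj n y) x) at h6
  rw [map_sub] at h6
  exact h6

include hL hR hLR hD in
lemma inner_e (N : ℕ) : ∃ f : X →L[ℂ] ℂ, ∀ (a : Alg) (x : X),
    D (e N * a) x = f (R' (e N * a) x) - f (L' (e N * a) x) := by
  obtain ⟨f, hf⟩ := inner_block hL hR hLR hD N
  refine ⟨f, fun a x => ?_⟩
  rw [e_mul_eq]
  simp only [map_sum, _root_.sum_apply]
  rw [← Finset.sum_sub_distrib]
  exact Finset.sum_congr rfl fun n hn => hf n (Finset.mem_range.1 hn) _ x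

lemma norm_e (N : ℕ) : ‖e N‖ ≤ 1 := by
  refine alg_norm_le _ _ zero_le_one fun n => ?_
  rw [co_e]
  split_ifs
  · rw [norm_E]
  · rw [norm_zero]; exact zero_le_one

include hL hR hLR hD in
lemma approx_e (N : ℕ) : ∃ f : X →L[ℂ] ℂ, ∀ a : Alg,
    f.comp (R' a) - f.comp (L' a) = D (e N * a) + (D (a - e N * a)).comp (L' (e N)) +
      (D (a - e N * a)).comp (R' (e N)) := by
  obtain ⟨f, hf⟩ := inner_e hL hR hLR hD N
  refine ⟨f.comp (R' (e N)) + f.comp (L' (e N)) - (f.comp (L' (e N))).comp (R' (e N)),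
    fun a => ?_⟩
  ext x
  set b := a - e N * a with hb
  have hbe : b * e N = 0 := by
    rw [hb, sub_mul, alg_mul_comm a (e N), mul_assoc, alg_mul_comm a (e N), ← mul_assoc, e_mul_e,
      sub_self]
  have heb : e N * b = 0 := by rw [alg_mul_comm, hbe]
  have hDe : ∀ y : X, D (e N) y = f (R' (e N) y) - f (L' (e N) y) := by
    intro y
    have := hf (e N) y
    rwa [e_mul_e] at this
  -- the two tail identities
  have h1 : D b (L' (e N) x) = f (L' (e N) (R' b x)) := by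
    have h := hD_apply hD b (e N) x
    rw [hbe, map_zero, zero_apply, hDe, ← hR, hbe, map_zero, zero_apply, map_zero, zero_sub] at h
    linear_combination (-1 : ℂ) * h
  have h2 : D b (R' (e N) x) = - f (R' (e N) (L' b x)) := by
    have h := hD_apply hD (e N) b x
    rw [heb, map_zero, zero_apply, hDe, ← hL, heb, map_zero, zero_apply, map_zero, sub_zero] at h
    linear_combination (-1 : ℂ) * h
  have hba : ∀ y : X, R' b y = R' a y - R' (e N * a) y := by
    intro y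
    rw [hb, map_sub]; rfl
  have hbl : ∀ y : X, L' b y = L' a y - L' (e N * a) y := by
    intro y
    rw [hb, map_sub]; rfl
  simp only [sub_apply, add_apply, ContinuousLinearMap.comp_apply]
  rw [h1, h2, hf a x, hba, hbl]
  have r1 : R' (e N) (R' a x) = R' (e N * a) x := by rw [← hR, alg_mul_comm]
  have r2 : L' (e N) (L' a x) = L' (e N * a) x := by rw [← hL]
  have r3 : L' (e N) (R' (e N) (L' a x)) = R' (e N) (L' (e N * a) x) := by
    rw [hLR, r2]
  rw [r1, r2, r3]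
  simp only [map_sub]
  ring

include hL hR hLR hD in
theorem pos : ∃ C : ℝ, ∀ (F : Finset Alg) (ε : ℝ), 0 < ε → ∃ f : X →L[ℂ] ℂ,
    (∀ a : Alg, ‖f.comp (R' a) - f.comp (L' a)‖ ≤ C * ‖a‖) ∧
      ∀ a ∈ F, ‖D a - (f.comp (R' a) - f.comp (L' a))‖ < ε := by
  refine ⟨‖D‖ * (1 + ‖L'‖ + ‖R'‖), fun F ε hε => ?_⟩
  set C := ‖D‖ * (1 + ‖L'‖ + ‖R'‖) with hC
  have hC0 : 0 ≤ C := by positivity
  have hN : ∀ᶠ N in atTop, ∀ a ∈ F, C * ‖a - e N * a‖ < ε := by
    rw [Filter.eventually_all_finset]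
    intro a _
    have h := (e_mul_tendsto a).const_mul C
    rw [mul_zero] at h
    exact h.eventually_lt_const hε
  obtain ⟨N, hN⟩ := hN.exists
  obtain ⟨f, hf⟩ := approx_e hL hR hLR hD N
  have hLe : ‖L' (e N)‖ ≤ ‖L'‖ :=
    (L'.le_opNorm _).trans (mul_le_of_le_one_right (norm_nonneg _) (norm_e N))
  have hRe : ‖R' (e N)‖ ≤ ‖R'‖ :=
    (R'.le_opNorm _).trans (mul_le_of_le_one_right (norm_nonneg _) (norm_e N))
  have hb1 : ∀ b : Alg, ‖(D b).comp (L' (e N))‖ ≤ (‖D‖ * ‖b‖) * ‖L'‖ := fun b =>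
    (ContinuousLinearMap.opNorm_comp_le _ _).trans
      (mul_le_mul (D.le_opNorm b) hLe (norm_nonneg _) (by positivity))
  have hb2 : ∀ b : Alg, ‖(D b).comp (R' (e N))‖ ≤ (‖D‖ * ‖b‖) * ‖R'‖ := fun b =>
    (ContinuousLinearMap.opNorm_comp_le _ _).trans
      (mul_le_mul (D.le_opNorm b) hRe (norm_nonneg _) (by positivity))
  refine ⟨f, fun a => ?_, fun a ha => ?_⟩
  · rw [hf a]
    have h1 : ‖D (e N * a)‖ ≤ ‖D‖ * ‖a‖ :=
      (D.le_opNorm _).trans (by gcongr; exact norm_e_mul N a)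
    have h2 := (hb1 (a - e N * a)).trans (show _ ≤ (‖D‖ * ‖a‖) * ‖L'‖ by
      gcongr; exact norm_sub_e_mul N a)
    have h3 := (hb2 (a - e N * a)).trans (show _ ≤ (‖D‖ * ‖a‖) * ‖R'‖ by
      gcongr; exact norm_sub_e_mul N a)
    refine (norm_add₃_le).trans ?_
    calc _ ≤ ‖D‖ * ‖a‖ + (‖D‖ * ‖a‖) * ‖L'‖ + (‖D‖ * ‖a‖) * ‖R'‖ := by gcongr
      _ = C * ‖a‖ := by rw [hC]; ring
  · have h1 : D a - (f.comp (R' a) - f.comp (L' a)) = D (a - e N * a) -
        (D (a - e N * a)).comp (L' (e N)) - (D (a - e N * a)).comp (R' (e N)) := by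
      rw [hf a]
      have : D (a - e N * a) = D a - D (e N * a) := map_sub _ _ _
      rw [this]
      abel
    rw [h1]
    refine lt_of_le_of_lt ?_ (hN a ha)
    refine (norm_sub_le _ _).trans ?_
    refine (add_le_add_left (norm_sub_le _ _) _).trans ?_
    calc _ ≤ ‖D‖ * ‖a - e N * a‖ + (‖D‖ * ‖a - e N * a‖) * ‖L'‖ +
          (‖D‖ * ‖a - e N * a‖) * ‖R'‖ := by
          gcongr
          · exact D.le_opNorm _
          · exact hb1 _
          · exact hb2 _
      _ = C * ‖a - e N * a‖ := by rw [hC]; ring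

end pos

end Pool.Agent.Q163.BA
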