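import Pool.Agent.Q163.BA.Base

set_option autoImplicit false

open Filter Topology

namespace Pool.Agent.Q163.BA

/-- The group: polynomials over the field with two elements. -/
abbrev G : Type := Polynomial (ZMod 2)

/-- The Banach space of each block. -/
abbrev L : Type := L1 G

/-- The weight of the block `n`: `1` on the subgroup of polynomials without constant term,
`n + 1` off it. -/
noncomputable def w (n : ℕ) (g : G) : ℝ := if g.coeff 0 = 0 then 1 else (n : ℝ) + 1

lemma one_le_w (n : ℕ) (g : G) : 1 ≤ w n g := by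
  unfold w
  split_ifs
  · exact le_refl _
  · have : (0 : ℝ) ≤ n := Nat.cast_nonneg n
    linarith

lemma w_pos (n : ℕ) (g : G) : 0 < w n g := zero_lt_one.trans_le (one_le_w n g)

lemma w_ne (n : ℕ) (g : G) : w n g ≠ 0 := (w_pos n g).ne'

lemma w_neC (n : ℕ) (g : G) : ((w n g : ℝ) : ℂ) ≠ 0 := by exact_mod_cast w_ne n g

lemma w_le (n : ℕ) (g : G) : w n g ≤ (n : ℝ) + 1 := by
  have : (0 : ℝ) ≤ n := Nat.cast_nonneg n
  unfold w
  split_ifs <;> linarith

lemma w_zero (n : ℕ) : w n 0 = 1 := by simp [w]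

lemma w_add_le (n : ℕ) (g h : G) : w n (g + h) ≤ w n g * w n h := by
  have hn : (0 : ℝ) ≤ n := Nat.cast_nonneg n
  by_cases hg : g.coeff 0 = 0
  · by_cases hh : h.coeff 0 = 0
    · simp [w, hg, hh]
    · calc w n (g + h) ≤ (n : ℝ) + 1 := w_le n _
        _ = w n h := by simp [w, hh]
        _ ≤ w n g * w n h := le_mul_of_one_le_left (w_pos n h).le (one_le_w n g)
  · calc w n (g + h) ≤ (n : ℝ) + 1 := w_le n _
      _ = w n g := by simp [w, hg]
      _ ≤ w n g * w n h := le_mul_of_one_le_right (w_pos n g).le (one_le_w n h)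

/-- The cocycle. -/
noncomputable def c (n : ℕ) (g h : G) : ℂ := ((w n (g + h) / (w n g * w n h) : ℝ) : ℂ)

lemma norm_c (n : ℕ) (g h : G) : ‖c n g h‖ ≤ 1 := by
  have h0 : 0 < w n g * w n h := mul_pos (w_pos n g) (w_pos n h)
  rw [c, Complex.norm_real, Real.norm_eq_abs, abs_of_pos (div_pos (w_pos n _) h0), div_le_one h0]
  exact w_add_le n g h

lemma c_mul (n : ℕ) (g h k : G) : c n g h * c n (g + h) k = c n h k * c n g (h + k) := by
  have h1 := w_neC n g
  have h2 := w_neC n h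
  have h3 := w_neC n k
  have h4 := w_neC n (g + h)
  have h5 := w_neC n (h + k)
  unfold c
  push_cast
  rw [add_assoc g h k]
  field_simp

lemma c_comm (n : ℕ) (g h : G) : c n g h = c n h g := by
  unfold c
  rw [add_comm, mul_comm (w n g)]

lemma c_zero (n : ℕ) (g : G) : c n 0 g = 1 := by
  unfold c
  rw [zero_add, w_zero, one_mul, div_self (w_ne n g), Complex.ofReal_one]

/-- The product of the block `n`: the weighted convolution, in normalised coordinates. -/
noncomputable def mul (n : ℕ) : L →L[ℂ] L →L[ℂ] L :=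
  lift (fun g => lift (fun h => c n g h • E (g + h)) 1 (fun h => by
    rw [norm_smul, norm_E, mul_one]; exact norm_c n g h)) 1
    (fun _ => norm_lift_le _ _ _ zero_le_one)

lemma mul_E (n : ℕ) (g h : G) : mul n (E g) (E h) = c n g h • E (g + h) := by
  simp [mul]

lemma norm_mul_le' (n : ℕ) (a b : L) : ‖mul n a b‖ ≤ ‖a‖ * ‖b‖ := by
  have h1 : ‖mul n‖ ≤ 1 := norm_lift_le _ _ _ zero_le_one
  calc ‖mul n a b‖ ≤ ‖mul n a‖ * ‖b‖ := (mul n a).le_opNorm b
    _ ≤ (‖mul n‖ * ‖a‖) * ‖b‖ := by gcongr; exact (mul n).le_opNorm a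
    _ ≤ (1 * ‖a‖) * ‖b‖ := by gcongr
    _ = ‖a‖ * ‖b‖ := by rw [one_mul]

lemma mul_assoc' (n : ℕ) (a b d : L) : mul n (mul n a b) d = mul n a (mul n b d) := by
  refine clm_ext (((mul n).flip d).comp ((mul n).flip b)) ((mul n).flip (mul n b d))
    (fun s => ?_) a
  refine clm_ext (((mul n).flip d).comp (mul n (E s))) ((mul n (E s)).comp ((mul n).flip d))
    (fun t => ?_) b
  refine clm_ext (mul n (mul n (E s) (E t))) ((mul n (E s)).comp (mul n (E t))) (fun u => ?_) d
  simp only [ContinuousLinearMap.comp_apply, mul_E, map_smul, smul_apply, smul_smul]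
  rw [c_mul, add_assoc]

lemma mul_comm' (n : ℕ) (a b : L) : mul n a b = mul n b a := by
  refine clm_ext ((mul n).flip b) (mul n b) (fun s => ?_) a
  refine clm_ext (mul n (E s)) ((mul n).flip (E s)) (fun t => ?_) b
  simp only [ContinuousLinearMap.flip_apply, mul_E]
  rw [c_comm, add_comm]

lemma one_mul' (n : ℕ) (a : L) : mul n (E 0) a = a := by
  refine clm_ext (mul n (E 0)) (ContinuousLinearMap.id ℂ L) (fun s => ?_) a
  rw [mul_E, c_zero, zero_add, one_smul]; rfl

/-- The augmentation character of the block `n`. -/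
noncomputable def χ (n : ℕ) : L →L[ℂ] ℂ :=
  lift (fun g => (((w n g)⁻¹ : ℝ) : ℂ)) 1 (fun g => by
    rw [Complex.norm_real, Real.norm_eq_abs, abs_of_pos (inv_pos.2 (w_pos n g))]
    exact inv_le_one_of_one_le₀ (one_le_w n g))

lemma χ_E (n : ℕ) (g : G) : χ n (E g) = (((w n g)⁻¹ : ℝ) : ℂ) := lift_E _ _ _ _

lemma norm_χ_le (n : ℕ) (a : L) : ‖χ n a‖ ≤ ‖a‖ := by
  have h1 : ‖χ n‖ ≤ 1 := norm_lift_le _ _ _ zero_le_one
  calc ‖χ n a‖ ≤ ‖χ n‖ * ‖a‖ := (χ n).le_opNorm a
    _ ≤ 1 * ‖a‖ := by gcongr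
    _ = ‖a‖ := one_mul _

lemma χ_mul (n : ℕ) (a b : L) : χ n (mul n a b) = χ n a * χ n b := by
  refine clm_ext ((χ n).comp ((mul n).flip b)) ((χ n b) • χ n) (fun s => ?_) a |>.trans ?_
  · refine clm_ext ((χ n).comp (mul n (E s))) ((χ n (E s)) • χ n) (fun t => ?_) b |>.trans ?_
    · simp only [ContinuousLinearMap.comp_apply, mul_E, map_smul, smul_apply, χ_E, smul_eq_mul, c]
      have h1 := w_neC n s
      have h2 := w_neC n t
      have h3 := w_neC n (s + t)
      push_cast
      field_simp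
    · simp [mul_comm]
  · simp [mul_comm]

end Pool.Agent.Q163.BA
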